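import Pool.Agent.helper62.QX.SpecT

set_option autoImplicit false

/-!
# Project QX (MP_07c750_an), row qt:BTR
-/

open scoped Topology
open Filter Set Polynomial
open Pool.Agent.QU Pool.Agent.RP

namespace Pool.Agent.QX

private theorem BTR_coeff {D : ℕ} (P : Mat D F2) (K : ℝ) (h : ℝ[X]) (i j : Fin D) (w : F2) :
    ((aeval (K⁻¹ • P) h) i j).coeff w =
      ∑ k ∈ Finset.range (h.natDegree + 1), ((h.coeff k * K⁻¹ ^ k : ℝ) : ℂ) * ((P ^ k) i j).coeff w := by
  rw [Polynomial.aeval_eq_sum_range]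
  rw [Matrix.sum_apply, MonoidAlgebra.coeff_sum, Finsupp.finsetSum_apply]
  refine Finset.sum_congr rfl fun k _ => ?_
  rw [_root_.smul_pow, smul_smul, Matrix.smul_apply, MonoidAlgebra.coeff_smul, Finsupp.smul_apply,
    Complex.real_smul]

private theorem BTR_pow {D q : ℕ} (P : Mat D F2) (hS : Sup P {w | w.norm ≤ q}) (p : ℕ) :
    Sup (P ^ p) {w | w.norm ≤ q * p} := by
  induction p with
  | zero =>
    intro i j γ hγ
    rw [pow_zero, Matrix.one_apply] at hγ
    show γ.norm ≤ q * 0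
    split_ifs at hγ with hij
    · rw [MonoidAlgebra.one_def, MonoidAlgebra.coeff_single,
        Finsupp.support_single_ne_zero _ one_ne_zero, Finset.mem_singleton] at hγ
      rw [hγ, FreeGroup.norm_one]
      exact Nat.zero_le _
    · rw [MonoidAlgebra.coeff_zero] at hγ
      simp at hγ
  | succ p ih =>
    intro i j γ hγ
    show γ.norm ≤ q * (p + 1)
    rw [pow_succ, Matrix.mul_apply] at hγ
    have hne : (∑ k, (P ^ p) i k * P k j).coeff γ ≠ 0 := Finsupp.mem_support_iff.1 hγ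
    have hex : ∃ k, ((P ^ p) i k * P k j).coeff γ ≠ 0 := by
      by_contra hcon
      push Not at hcon
      apply hne
      rw [MonoidAlgebra.coeff_sum, Finsupp.finsetSum_apply]
      exact Finset.sum_eq_zero fun k _ => hcon k
    obtain ⟨k, hk⟩ := hex
    classical
    have h2 := MonoidAlgebra.support_coeff_mul_subset ((P ^ p) i k) (P k j)
      (Finsupp.mem_support_iff.2 hk)
    obtain ⟨a, ha, b, hb, rfl⟩ := Finset.mem_mul.1 h2
    have h3 : a.norm ≤ q * p := ih i k a ha
    have h4 : b.norm ≤ q := hS k j b hb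
    calc (a * b).norm ≤ a.norm + b.norm := FreeGroup.norm_mul_le a b
      _ ≤ q * p + q := add_le_add h3 h4
      _ = q * (p + 1) := by ring

private theorem BTR_bc {D : ℕ} (K : ℝ) (P : Mat D F2) (h : ℝ[X]) (w : F2) :
    (bT K P h).coeff w = ((D : ℂ)⁻¹) * (∑ i, (aeval (K⁻¹ • P) h : Mat D F2) i i).coeff w := by
  unfold bT
  rw [MonoidAlgebra.coeff_smul, Finsupp.smul_apply, smul_eq_mul]

theorem BTR (h1 : GMA_stmt) : BTR_stmt := by
  intro D N Φ P K h hΦ hD hN
  have hDne : (D : ℂ) ≠ 0 := by exact_mod_cast (by omega : D ≠ 0)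
  have hDne' : (D : ℝ) ≠ 0 := by exact_mod_cast (by omega : D ≠ 0)
  have hNne : (N : ℝ) ≠ 0 := by exact_mod_cast (by omega : N ≠ 0)
  have hA : ∀ σ, np Φ K P h σ = tau N (bT K P h) (FreeGroup.lift σ) / N := by
    intro σ
    obtain ⟨-, -, g3, -, -, -, -, -, -, -, g11⟩ := h1 D (N - 1) (rs Φ σ)
    set s := ∑ i, (aeval (K⁻¹ • P) h : Mat D F2) i i with hs
    have e1 : np Φ K P h σ = (∑ w ∈ s.coeff.support, (s.coeff w).re * ((fx (FreeGroup.lift σ w) : ℝ) - 1)) / (D * N) := by
      unfold np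
      rw [g11, g3, Complex.re_sum]
      congr 1
      refine Finset.sum_congr rfl fun w _ => ?_
      have e2 : Matrix.trace ((rs Φ σ w : Matrix.unitaryGroup (Fin (N - 1)) ℂ) : Matrix (Fin (N - 1)) (Fin (N - 1)) ℂ) =
          (((fx (FreeGroup.lift σ w) : ℝ) - 1 : ℝ) : ℂ) := by
        have e3 := hΦ.tr (FreeGroup.lift σ w)
        have e4 : rs Φ σ w = Φ (FreeGroup.lift σ w) := rfl
        rw [e4, e3]
        push_cast
        ring
      rw [e2, Complex.re_mul_ofReal]
    have e5 : tau N (bT K P h) (FreeGroup.lift σ) =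
        (D : ℝ)⁻¹ * ∑ w ∈ s.coeff.support, (s.coeff w).re * ((fx (FreeGroup.lift σ w) : ℝ) - 1) := by
      unfold tau
      have e6 : (bT K P h).coeff.support = s.coeff.support := by
        ext w
        rw [Finsupp.mem_support_iff, Finsupp.mem_support_iff, BTR_bc]
        constructor
        · intro h2 h3
          exact h2 (by rw [h3, mul_zero])
        · intro h2
          exact mul_ne_zero (inv_ne_zero hDne) h2
      rw [e6, Finset.mul_sum]
      refine Finset.sum_congr rfl fun w _ => ?_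
      rw [BTR_bc, ← hs]
      have e7 : ((D : ℂ)⁻¹ * s.coeff w).re = (D : ℝ)⁻¹ * (s.coeff w).re := by
        have e8 : (D : ℂ)⁻¹ = (((D : ℝ)⁻¹ : ℝ) : ℂ) := by push_cast; rfl
        rw [e8, Complex.re_ofReal_mul]
      rw [e7]
      ring
    rw [e1, e5]
    field_simp
  refine ⟨hA, ?_, ?_⟩
  · have e1 : av (np Φ K P h) = (∑ σ : Fin 2 → Equiv.Perm (Fin N), tau N (bT K P h) (FreeGroup.lift σ)) / N / (N.factorial : ℝ) ^ 2 := by
      unfold av
      rw [Finset.sum_congr rfl fun σ _ => hA σ, ← Finset.sum_div]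
    have hf : ((N.factorial : ℝ) ^ 2) ≠ 0 := pow_ne_zero _ (by exact_mod_cast N.factorial_ne_zero)
    rw [e1, SCS_avg]
    field_simp
  · intro q hS w hw
    rw [Finsupp.mem_support_iff, BTR_bc] at hw
    have h2 : (∑ i, (aeval (K⁻¹ • P) h : Mat D F2) i i).coeff w ≠ 0 := fun h3 => hw (by rw [h3, mul_zero])
    rw [MonoidAlgebra.coeff_sum, Finsupp.finsetSum_apply] at h2
    obtain ⟨i, -, hi⟩ := Finset.exists_ne_zero_of_sum_ne_zero h2
    rw [BTR_coeff] at hi
    obtain ⟨k, hk, hk2⟩ := Finset.exists_ne_zero_of_sum_ne_zero hi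
    have h3 : ((P ^ k) i i).coeff w ≠ 0 := fun h4 => hk2 (by rw [h4, mul_zero])
    have h4 : w.norm ≤ q * k := BTR_pow P hS k i i w (Finsupp.mem_support_iff.2 h3)
    exact h4.trans (Nat.mul_le_mul_left q (Nat.lt_succ_iff.1 (Finset.mem_range.1 hk)))

end Pool.Agent.QX
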