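import Pool.Agent.helper4.QX.SpecD
import Pool.Agent.helper62.QU.All
import Pool.Agent.helper68.QX.SEC

set_option autoImplicit false

/-!
# Project QX (MP_07c750_an), row qd:GKL: smoothing of functions of class C²
-/

open scoped MatrixGroups ContDiff Topology UpperHalfPlane
open UpperHalfPlane MeasureTheory ProbabilityTheory Filter Set Polynomial
open Pool.Agent.QU Pool.Agent.RP

namespace Pool.Agent.QX

private theorem GKL_lapc {E : Type} [NormedAddCommGroup E] [NormedSpace ℝ E] {u : ℍ → E} (hu : CD 2 u) : Continuous (lap u) := by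
  have h1 : ContDiffOn ℝ 1 (fderiv ℝ (onC u)) CA1_U := by
    refine ContDiffOn.fderiv_of_isOpen (n := 2) hu CA1_open ?_
    norm_num
  have h2 : ContDiffOn ℝ 0 (fderiv ℝ (fderiv ℝ (onC u))) CA1_U := by
    refine ContDiffOn.fderiv_of_isOpen (n := 1) h1 CA1_open ?_
    norm_num
  have h3 : ContinuousOn (fderiv ℝ (fderiv ℝ (onC u))) CA1_U := h2.continuousOn
  have h4 : Continuous fun z : ℍ => fderiv ℝ (fderiv ℝ (onC u)) (z : ℂ) :=
    h3.comp_continuous UpperHalfPlane.continuous_coe (fun z => CA1_mem z)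
  have h5 : ∀ v v' : ℂ, Continuous fun z : ℍ => fderiv ℝ (fderiv ℝ (onC u)) (z : ℂ) v v' := by
    intro v v'
    exact (h4.clm_apply continuous_const).clm_apply continuous_const
  unfold lap
  exact ((UpperHalfPlane.continuous_im.pow 2).neg).smul ((h5 1 1).add (h5 Complex.I Complex.I))

/-- lower bound for the primitive of the bump -/
private theorem GKL_Q (κ₁ : ℝ → ℝ) (hc : Continuous κ₁) (hn : ∀ t, 0 ≤ κ₁ t) (hp : ∀ t, 0 ≤ t → t < 1 → 0 < κ₁ t) :
    ∃ c : ℝ, 0 < c ∧ ∀ x : ℝ, 0 ≤ x → x ≤ 1 → c * x ≤ SEC_Q κ₁ x := by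
  obtain ⟨t₀, ht₀, hmin⟩ := isCompact_Icc.exists_isMinOn (s := Set.Icc (0 : ℝ) (1 / 2)) ⟨0, by constructor <;> norm_num⟩ hc.continuousOn
  have hd : 0 < κ₁ t₀ := hp t₀ ht₀.1 (by linarith [ht₀.2])
  have h1 : ∀ x : ℝ, 0 ≤ x → x ≤ 1 / 2 → κ₁ t₀ * x ≤ SEC_Q κ₁ x := by
    intro x hx0 hx1
    unfold SEC_Q
    calc κ₁ t₀ * x = ∫ _ in (0 : ℝ)..x, κ₁ t₀ := by
          rw [intervalIntegral.integral_const, smul_eq_mul, sub_zero, mul_comm]
      _ ≤ ∫ r in (0 : ℝ)..x, κ₁ r := by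
          refine intervalIntegral.integral_mono_on hx0 intervalIntegrable_const (hc.intervalIntegrable _ _) fun r hr => ?_
          exact hmin (a := r) ⟨hr.1, hr.2.trans hx1⟩
  refine ⟨κ₁ t₀ / 2, half_pos hd, fun x hx0 hx1 => ?_⟩
  rcases le_total x (1 / 2) with h | h
  · have h2 := h1 x hx0 h
    nlinarith [mul_nonneg hd.le hx0]
  · have h2 := h1 (1 / 2) (by norm_num) le_rfl
    have h3 := SEC_Qmono κ₁ hc hn h
    nlinarith

theorem GKL (_hYNM : YNM_stmt) (_hCVI : CVI_stmt) : GKL_stmt := by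
  intro κ₁ C hBF Γ F V _ _ _ ρ κ φ m s hΓ hF hs hκ hκ0 hκs hmass hsec hφ
  obtain ⟨c₀, hc₀, hmas⟩ := A_MAS
  have hc : Continuous κ₁ := hBF.smooth.continuous
  have hn := hBF.nonneg
  have hz := hBF.supp
  have hfam := hBF.fam
  have hκc : Continuous κ := hκ.smooth.continuous
  have htt0 : ∀ z w, 0 ≤ tt z w := A_TTT.2.1
  have hφc : Continuous φ := hsec.cont
  have hlc : Continuous (lap φ) := GKL_lapc hφ
  obtain ⟨K, hK, hFK⟩ := hF.rel
  obtain ⟨-, -, -, hfin, -, -⟩ := A_DOB Γ F hΓ hF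
  obtain ⟨-, -, c3, c4, -, c6, -, -⟩ := A_CVB V
  have hRHS : 0 ≤ (m * s / 2) ^ 2 * ∫ z in F, ‖lap φ z‖ ^ 2 :=
    mul_nonneg (sq_nonneg _) (integral_nonneg fun z => sq_nonneg _)
  have hm0 : 0 ≤ m := by
    rw [← hmass UpperHalfPlane.I]
    exact integral_nonneg fun w => hκ0 _ (htt0 _ _)
  rcases hm0.eq_or_lt with hm | hm
  · -- mass zero
    have h1 : ∀ z, conv κ φ z - m • φ z = 0 := by
      intro z
      have h2 := hmass z
      rw [← hm] at h2
      have h3 : Integrable fun w : ℍ => κ (tt z w) :=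
        (YNG_cont1 A_TTT hκ z).integrable_of_hasCompactSupport (YNG_cpt A_TTT hκ z)
      have h4 := (integral_eq_zero_iff_of_nonneg (fun w => hκ0 _ (htt0 z w)) h3).1 h2
      have h5 : conv κ φ z = 0 := by
        unfold conv
        have h6 : (fun w : ℍ => κ (tt z w) • φ w) =ᵐ[volume] fun _ => (0 : V) := by
          filter_upwards [h4] with w hw
          have h7 : κ (tt z w) = 0 := hw
          rw [h7, zero_smul]
        rw [integral_congr_ae h6, integral_zero]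
      rw [h5, ← hm, zero_smul, sub_zero]
    simp_rw [h1]
    simpa using hRHS
  have hq : SEC_Q κ₁ 1 = 1 / c₀ := by
    have h1 := hfam.mass 1 one_pos UpperHalfPlane.I
    have h2 := hmas (fm κ₁ 1) 1 (hfam.rk 1 one_pos).smooth one_pos (hfam.supp 1 one_pos)
      UpperHalfPlane.I
    rw [h1, SEC_fint κ₁ 1 one_pos, div_one] at h2
    rw [eq_div_iff hc₀.ne', mul_comm]
    exact h2.symm
  have hKs : SEC_Q κ s = m / c₀ := by
    have h2 := hmas κ s hκ.smooth hs hκs UpperHalfPlane.I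
    rw [hmass] at h2
    rw [eq_div_iff hc₀.ne', mul_comm]
    exact h2.symm
  have hint : ∀ a b, IntervalIntegrable κ volume a b := fun a b => hκc.intervalIntegrable a b
  have hKmono : ∀ a b, 0 ≤ a → a ≤ b → SEC_Q κ a ≤ SEC_Q κ b := by
    intro a b ha hab
    unfold SEC_Q
    rw [← intervalIntegral.integral_add_adjacent_intervals (hint 0 a) (hint a b)]
    have := intervalIntegral.integral_nonneg (f := κ) (μ := volume) hab (fun u hu => hκ0 u (ha.trans hu.1))
    linarith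
  have hKbig : ∀ t, s ≤ t → SEC_Q κ t = SEC_Q κ s := by
    intro t ht
    unfold SEC_Q
    rw [← intervalIntegral.integral_add_adjacent_intervals (hint 0 s) (hint s t)]
    have h3 : ∫ r in s..t, κ r = ∫ r in s..t, (0 : ℝ) := by
      refine intervalIntegral.integral_congr fun r hr => ?_
      rw [uIcc_of_le ht] at hr
      exact hκs r hr.1
    rw [h3, intervalIntegral.integral_zero, add_zero]
  have hKle : ∀ t, 0 ≤ t → SEC_Q κ t ≤ m / c₀ := by
    intro t ht
    rw [← hKs]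
    rcases le_total t s with h | h
    · exact hKmono t s ht h
    · exact (hKbig t h).le
  have hKnn : ∀ t, 0 ≤ t → 0 ≤ SEC_Q κ t := by
    intro t ht
    rw [← SEC_Q0 κ]
    exact hKmono 0 t le_rfl ht
  obtain ⟨B, hB⟩ := (isCompact_Icc (a := (0 : ℝ)) (b := s)).exists_bound_of_continuousOn hκc.continuousOn
  have hB0 : 0 ≤ B := (norm_nonneg _).trans (hB 0 ⟨le_rfl, hs.le⟩)
  have hKB : ∀ t, 0 ≤ t → t ≤ s → SEC_Q κ t ≤ B * t := by
    intro t ht hts
    unfold SEC_Q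
    calc ∫ r in (0 : ℝ)..t, κ r ≤ ∫ _ in (0 : ℝ)..t, B := by
          refine intervalIntegral.integral_mono_on ht (hint 0 t) intervalIntegrable_const fun r hr => ?_
          exact (le_abs_self _).trans (hB r ⟨hr.1, hr.2.trans hts⟩)
      _ = B * t := by rw [intervalIntegral.integral_const, smul_eq_mul, sub_zero, mul_comm]
  obtain ⟨c, hc0, hcQ⟩ := GKL_Q κ₁ hc hn (fun t ht ht1 => by
    have h1 := hfam.pos 1 one_pos t ht ht1
    unfold fm at h1
    rw [div_one, div_one] at h1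
    exact h1)
  apply EIG_lim _ _ (volume F).toReal hRHS ENNReal.toReal_nonneg
  intro ε hε
  obtain ⟨η₀, hη₀, hap⟩ := (A_APX (fm κ₁) hfam).1 V φ hφc K hK (ε / (m + 1)) (by positivity)
  obtain ⟨η, hη, hle, hle', hle''⟩ : ∃ η : ℝ, 0 < η ∧ η ≤ s ∧ η ≤ η₀ ∧ η ≤ m * c / (B + 1) := by
    refine ⟨min (min s η₀) (m * c / (B + 1)), lt_min (lt_min hs hη₀) (by positivity), ?_, ?_, ?_⟩
    · exact le_trans (min_le_left _ _) (min_le_left _ _)
    · exact le_trans (min_le_left _ _) (min_le_right _ _)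
    · exact min_le_right _ _
  have hkη : RK (fm κ₁ η) := hfam.rk η hη
  have hfi : ∀ t, IntervalIntegrable (fm κ₁ η) volume 0 t :=
    fun t => hkη.smooth.continuous.intervalIntegrable _ _
  have hθ : ∀ t, ∫ r in (0 : ℝ)..t, (κ r - m * fm κ₁ η r) = SEC_Q κ t - m * SEC_Q κ₁ (t / η) := by
    intro t
    rw [intervalIntegral.integral_sub (hint 0 t) ((hfi t).const_mul m), intervalIntegral.integral_const_mul, SEC_fint κ₁ η hη]
    rfl
  obtain ⟨ψ, hψ, hψs, hψL, hψc⟩ := A_ROD (fun t => κ t - m * fm κ₁ η t) s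
    (hκ.smooth.sub (contDiff_const.mul hkη.smooth)) hs (fun t ht => by
      show κ t - m * fm κ₁ η t = 0
      rw [hκs t ht, hfam.supp η hη t (hle.trans ht), mul_zero, sub_zero]) (by
      rw [hθ, hKs, SEC_Qbig κ₁ hc hz _ ((one_le_div hη).2 hle), hq]
      ring)
  obtain ⟨hψ0, hψm⟩ := hψc (m / c₀) (fun t ht => by
    rw [hθ]
    have ha : 0 ≤ t / η := div_nonneg ht hη.le
    have hQle : SEC_Q κ₁ (t / η) ≤ 1 / c₀ := by
      rw [← hq]
      rcases le_total (t / η) 1 with h | h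
      · exact SEC_Qmono κ₁ hc hn h
      · exact (SEC_Qbig κ₁ hc hz _ h).le
    have h1 : m * SEC_Q κ₁ (t / η) ≤ m / c₀ := by
      calc m * SEC_Q κ₁ (t / η) ≤ m * (1 / c₀) := mul_le_mul_of_nonneg_left hQle hm.le
        _ = m / c₀ := by ring
    refine ⟨by linarith [hKnn t ht], ?_⟩
    rcases le_total η t with h | h
    · rw [SEC_Qbig κ₁ hc hz _ ((one_le_div hη).2 h), hq]
      have h2 := hKle t ht
      have h3 : m * (1 / c₀) = m / c₀ := by ring
      linarith
    · have h2 := hKB t ht (h.trans hle)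
      have h3 := hcQ (t / η) ha ((div_le_one hη).2 h)
      have h4 : B * t ≤ m * (c * (t / η)) := by
        have h5 : B * η ≤ m * c := by
          rw [le_div_iff₀ (by positivity)] at hle''
          nlinarith
        have h6 : m * (c * (t / η)) = m * c / η * t := by ring
        rw [h6]
        apply mul_le_mul_of_nonneg_right _ ht
        rw [le_div_iff₀ hη]
        exact h5
      have h5 := mul_le_mul_of_nonneg_left h3 hm.le
      linarith)
  have hψmass : ∀ z : ℍ, ∫ w : ℍ, ψ (tt z w) ≤ m * s / 2 := by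
    intro z
    rw [hmas ψ s hψ.smooth hs hψs z]
    calc c₀ * ∫ t in (0 : ℝ)..s, ψ t ≤ c₀ * (m / c₀ * s / 2) := mul_le_mul_of_nonneg_left hψm hc₀.le
      _ = m * s / 2 := by field_simp
  have e1 : ∀ z, conv κ φ z - m • conv (fm κ₁ η) φ z = -conv ψ (lap φ) z := by
    intro z
    have a1 := c3 κ (fm κ₁ η) φ 1 (-m) z hκ hkη hφc
    have hLψ : RK (LL ψ) := A_LAK.2.2.2.1 ψ hψ
    have a2 := c4 (fun t => 1 * κ t + (-m) * fm κ₁ η t) (fun t => (-1) * LL ψ t + 0 * LL ψ t) φ z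
      (fun t ht => by rw [hψL t ht]; ring)
    have a5 := c3 (LL ψ) (LL ψ) φ (-1) 0 z hLψ hLψ hφc
    have a3 := A_COM V ψ φ hψ hφ z
    rw [a3]
    rw [a5, zero_smul, add_zero, neg_one_smul, a1, one_smul, _root_.neg_smul, ← sub_eq_add_neg] at a2
    exact a2
  have e2 : ∀ z ∈ F, ‖conv κ φ z - m • φ z‖ ^ 2 ≤ (1 + ε) * ‖conv ψ (lap φ) z‖ ^ 2 + (ε ^ 2 + ε) := by
    intro z hz'
    have b1 := hap η hη hle' z (hFK hz')
    have b2 : conv κ φ z - m • φ z = -conv ψ (lap φ) z + m • (conv (fm κ₁ η) φ z - φ z) := by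
      rw [← e1, smul_sub]
      abel
    have b3 : ‖conv κ φ z - m • φ z‖ ≤ ‖conv ψ (lap φ) z‖ + ε := by
      rw [b2]
      refine (norm_add_le _ _).trans ?_
      rw [norm_neg, norm_smul, Real.norm_of_nonneg hm.le]
      have b4 : m * ‖conv (fm κ₁ η) φ z - φ z‖ ≤ m * (ε / (m + 1)) := mul_le_mul_of_nonneg_left b1 hm.le
      have b5 : m * (ε / (m + 1)) ≤ ε := by
        rw [← mul_div_assoc, div_le_iff₀ (by positivity)]
        nlinarith
      linarith
    exact EIG_sq _ _ ε (norm_nonneg _) b3 hε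
  have i1 : IntegrableOn (fun z => ‖conv κ φ z - m • φ z‖ ^ 2) F volume :=
    EIG_int hK hFK hF.meas hfin _ (((c6 κ φ hκ hφc).sub (hφc.const_smul m)).norm.pow 2)
  have i2 : IntegrableOn (fun z => (1 + ε) * ‖conv ψ (lap φ) z‖ ^ 2) F volume :=
    EIG_int hK hFK hF.meas hfin _ (continuous_const.mul ((c6 ψ (lap φ) hψ hlc).norm.pow 2))
  have i3 : IntegrableOn (fun _ : ℍ => ε ^ 2 + ε) F volume :=
    EIG_int hK hFK hF.meas hfin _ continuous_const
  have e3 := A_YNG Γ F V ψ (lap φ) (m * s / 2) hΓ hF hψ hψ0 hψmass hlc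
    (fun γ z => by rw [SEC_eqv Γ V ρ (fm κ₁) hfam φ hφ hlc hsec.eqv, LinearIsometryEquiv.norm_map])
  calc ∫ z in F, ‖conv κ φ z - m • φ z‖ ^ 2
      ≤ ∫ z in F, ((1 + ε) * ‖conv ψ (lap φ) z‖ ^ 2 + (ε ^ 2 + ε)) :=
        setIntegral_mono_on i1 (i2.add i3) hF.meas e2
    _ = (1 + ε) * (∫ z in F, ‖conv ψ (lap φ) z‖ ^ 2) + (ε ^ 2 + ε) * (volume F).toReal := by
        rw [integral_add i2 i3, integral_const_mul, setIntegral_const,
          smul_eq_mul, mul_comm (ε ^ 2 + ε)]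
        rfl
    _ ≤ (1 + ε) * ((m * s / 2) ^ 2 * ∫ z in F, ‖lap φ z‖ ^ 2) + (ε ^ 2 + ε) * (volume F).toReal := by
        have d2 := mul_le_mul_of_nonneg_left e3 (by linarith : (0 : ℝ) ≤ 1 + ε)
        linarith

end Pool.Agent.QX
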