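import Pool.Agent.helper62.QX.SpecT

set_option autoImplicit false

/-!
# Project QX (MP_07c750_an), row qt:SQC
-/

open scoped Topology
open Filter Set Polynomial
open Pool.Agent.QU Pool.Agent.RP

namespace Pool.Agent.QX

theorem SQC : SQC_stmt := by
  intro n _ _ B t t' k k' ht
  refine ⟨?_, ?_⟩
  · rintro ⟨S, hS, hB⟩
    refine ⟨S, hS, fun v hv => ?_⟩
    have h1 := hB v hv
    set T := Matrix.toEuclideanCLM (n := n) (𝕜 := ℂ) B with hT
    have h2 : Matrix.toEuclideanCLM (n := n) (𝕜 := ℂ) (B.conjTranspose * B) = ContinuousLinearMap.adjoint T * T := by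
      rw [map_mul, ← Matrix.star_eq_conjTranspose, map_star, ContinuousLinearMap.star_eq_adjoint]
    rw [h2] at h1
    have h3 : ‖T v‖ ^ 2 ≤ (t * ‖v‖) ^ 2 := by
      calc ‖T v‖ ^ 2 = RCLike.re (inner ℂ ((ContinuousLinearMap.adjoint T * T) v) v) := T.apply_norm_sq_eq_inner_adjoint_left v
        _ ≤ ‖(ContinuousLinearMap.adjoint T * T) v‖ * ‖v‖ := re_inner_le_norm _ _
        _ ≤ (t ^ 2 * ‖v‖) * ‖v‖ := mul_le_mul_of_nonneg_right h1 (norm_nonneg _)
        _ = (t * ‖v‖) ^ 2 := by ring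
    exact (sq_le_sq₀ (norm_nonneg _) (mul_nonneg ht (norm_nonneg _))).1 h3
  · rintro ⟨S, hS, hB⟩ htt hkk
    exact ⟨S, hS.trans (Nat.add_le_add_left hkk _), fun v hv =>
      (hB v hv).trans (mul_le_mul_of_nonneg_right htt (norm_nonneg _))⟩

end Pool.Agent.QX
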