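import Pool.Agent.helper4.QX.SpecD
import Pool.Agent.helper62.QU.All

set_option autoImplicit false

/-!
# Project QX (MP_07c750_an), row qd:SVM: the lemma of Svarc and Milnor
-/

open scoped MatrixGroups ContDiff Topology UpperHalfPlane
open UpperHalfPlane MeasureTheory ProbabilityTheory Filter Set Polynomial
open Pool.Agent.QU Pool.Agent.RP

namespace Pool.Agent.QX

private theorem SVM_mul {g n m : ℕ} {x y : SurfGrp g} (hx : x ∈ SLen g n) (hy : y ∈ SLen g m) : x * y ∈ SLen g (n + m) := by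
  obtain ⟨l, hl, rfl⟩ := hx
  obtain ⟨l', hl', rfl⟩ := hy
  refine ⟨l ++ l', ?_, ?_⟩
  · rw [List.length_append]
    omega
  · rw [List.map_append, List.prod_append]

private theorem SVM_mono {g n m : ℕ} (h : n ≤ m) {x : SurfGrp g} (hx : x ∈ SLen g n) : x ∈ SLen g m := by
  obtain ⟨l, hl, rfl⟩ := hx
  exact ⟨l, hl.trans h, rfl⟩

private theorem SVM_one {g n : ℕ} : (1 : SurfGrp g) ∈ SLen g n := ⟨[], by simp, by simp⟩

private theorem SVM_gen {g : ℕ} (x : SurfGrp g) : ∃ n : ℕ, x ∈ SLen g n := by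
  obtain ⟨y, rfl⟩ := QuotientGroup.mk_surjective x
  induction y using FreeGroup.induction_on with
  | C1 => exact ⟨0, SVM_one⟩
  | of i =>
    refine ⟨1, [(i, true)], by simp, ?_⟩
    simp only [List.map_cons, List.map_nil, List.prod_cons, List.prod_nil, mul_one, if_true]
    rfl
  | inv_of i hi =>
    refine ⟨1, [(i, false)], by simp, ?_⟩
    simp only [List.map_cons, List.map_nil, List.prod_cons, List.prod_nil, mul_one]
    rfl
  | mul a b ha hb =>
    obtain ⟨n, hn⟩ := ha
    obtain ⟨m, hm⟩ := hb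
    exact ⟨n + m, SVM_mul hn hm⟩

/-- bounded word length of the difference of the cells of two points -/
private def SVM_P {Γ : Subgroup SL(2, ℝ)} {g : ℕ} (e : Γ ≃* SurfGrp g) (F : Set ℍ) (m : ℕ) (z w : ℍ) : Prop :=
  ∀ α β : Γ, α⁻¹ • z ∈ F → β⁻¹ • w ∈ F → e (α⁻¹ * β) ∈ SLen g m

section chain

variable {Γ : Subgroup SL(2, ℝ)} {g : ℕ} (e : Γ ≃* SurfGrp g) (F : Set ℍ) (hF : NiceDom Γ F)
include hF

private theorem SVM_trans {m m' : ℕ} {z z' w : ℍ} (h1 : SVM_P e F m z z') (h2 : SVM_P e F m' z' w) : SVM_P e F (m + m') z w := by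
  intro α β hα hβ
  obtain ⟨γ, hγ, -⟩ := hF.uniq z'
  have h3 : (γ⁻¹)⁻¹ • z' ∈ F := by
    rw [inv_inv]
    exact hγ
  have h4 := SVM_mul (h1 α γ⁻¹ hα h3) (h2 γ⁻¹ β h3 hβ)
  rw [← map_mul] at h4
  have h5 : α⁻¹ * γ⁻¹ * ((γ⁻¹)⁻¹ * β) = α⁻¹ * β := by group
  rw [h5] at h4
  exact h4

private theorem SVM_refl (z : ℍ) : SVM_P e F 0 z z := by
  intro α β hα hβ
  obtain ⟨γ, -, hu⟩ := hF.uniq z
  have h1 : α⁻¹ = β⁻¹ := (hu _ hα).trans (hu _ hβ).symm
  rw [h1, inv_mul_cancel, map_one]
  exact SVM_one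

end chain

/-- the point with given real part and logarithm of the imaginary part -/
private noncomputable def SVM_pt (x t : ℝ) : ℍ := ⟨⟨x, Real.exp t⟩, Real.exp_pos t⟩

private theorem SVM_vert (x s t : ℝ) : dist (SVM_pt x s) (SVM_pt x t) = |s - t| := by
  rw [UpperHalfPlane.dist_of_re_eq]
  · show dist (Real.log (Real.exp s)) (Real.log (Real.exp t)) = _
    rw [Real.log_exp, Real.log_exp, Real.dist_eq]
  · rfl

private theorem SVM_hor (x a t : ℝ) (h : |x - a| ≤ Real.exp t) : dist (SVM_pt x t) (SVM_pt a t) ≤ 1 := by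
  refine (UpperHalfPlane.dist_le_dist_coe_div_sqrt _ _).trans ?_
  have h1 : (SVM_pt x t).im * (SVM_pt a t).im = Real.exp t ^ 2 := by
    show Real.exp t * Real.exp t = _
    ring
  rw [h1, Real.sqrt_sq (Real.exp_pos t).le, div_le_one (Real.exp_pos t), Complex.dist_eq]
  have h2 : ((SVM_pt x t : ℍ) : ℂ) - ((SVM_pt a t : ℍ) : ℂ) = ((x - a : ℝ) : ℂ) := by
    apply Complex.ext
    · show x - a = _
      rw [Complex.ofReal_re]
    · show Real.exp t - Real.exp t = _
      rw [Complex.ofReal_im, sub_self]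
  rw [h2, Complex.norm_real, Real.norm_eq_abs]
  exact h

private theorem SVM_eta (z : ℍ) : SVM_pt z.re (Real.log z.im) = z := by
  apply UpperHalfPlane.ext
  show (⟨z.re, Real.exp (Real.log z.im)⟩ : ℂ) = z
  rw [Real.exp_log z.im_pos]
  rfl

theorem SVM : SVM_stmt := by
  intro Γ F g e hΓ hF
  obtain ⟨K, hK, hFK⟩ := hF.rel
  -- the finite set
  have hfin := (A_DOB Γ F hΓ hF).2.2.2.2.2 K (Metric.cthickening 1 K) hK hK.cthickening
  obtain ⟨A₀, hA₀⟩ : ∃ A₀ : ℕ, ∀ δ : Γ, (∃ z ∈ K, δ • z ∈ Metric.cthickening 1 K) → e δ ∈ SLen g A₀ := by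
    choose f hf using fun δ : Γ => SVM_gen (e δ)
    refine ⟨hfin.toFinset.sup f, fun δ hδ => ?_⟩
    exact SVM_mono (Finset.le_sup (f := f) (hfin.mem_toFinset.2 hδ)) (hf δ)
  -- one step
  have hstep : ∀ z w : ℍ, dist z w ≤ 1 → SVM_P e F A₀ z w := by
    intro z w hzw α β hα hβ
    refine hA₀ _ ⟨β⁻¹ • w, hFK hβ, ?_⟩
    have h1 : (α⁻¹ * β) • (β⁻¹ • w) = α⁻¹ • w := by
      rw [← mul_smul]
      congr 1
      group
    rw [h1]
    refine Metric.mem_cthickening_of_dist_le _ (α⁻¹ • z) 1 K (hFK hα) ?_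
    have h2 : dist (α⁻¹ • w) (α⁻¹ • z) = dist w z := dist_smul ((α⁻¹ : Γ) : SL(2, ℝ)) w z
    rw [h2, dist_comm]
    exact hzw
  -- vertical chains
  have hvert : ∀ (k : ℕ) (x s t : ℝ), |s - t| ≤ k → SVM_P e F (A₀ * k) (SVM_pt x s) (SVM_pt x t) := by
    intro k
    induction k with
    | zero =>
      intro x s t h
      have h1 : s = t := by
        rw [Nat.cast_zero] at h
        have := abs_nonpos_iff.1 h
        linarith
      rw [h1, mul_zero]
      exact SVM_refl e F hF _
    | succ k ih =>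
      intro x s t h
      have hk0 : (0 : ℝ) < ((k + 1 : ℕ) : ℝ) := by positivity
      set u : ℝ := s + (t - s) / ((k + 1 : ℕ) : ℝ) with hu
      have h1 : |s - u| ≤ 1 := by
        have h2 : s - u = (s - t) / ((k + 1 : ℕ) : ℝ) := by
          rw [hu]
          ring
        rw [h2, abs_div, abs_of_pos hk0, div_le_one hk0]
        exact h
      have h2 : |u - t| ≤ k := by
        have h3 : u - t = (s - t) * ((k : ℝ) / ((k + 1 : ℕ) : ℝ)) := by
          rw [hu]
          push_cast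
          field_simp
          ring
        rw [h3, abs_mul, abs_of_nonneg (by positivity : (0 : ℝ) ≤ (k : ℝ) / ((k + 1 : ℕ) : ℝ))]
        calc |s - t| * ((k : ℝ) / ((k + 1 : ℕ) : ℝ)) ≤ ((k + 1 : ℕ) : ℝ) * ((k : ℝ) / ((k + 1 : ℕ) : ℝ)) :=
              mul_le_mul_of_nonneg_right h (by positivity)
          _ = k := by field_simp
      have h3 := SVM_trans e F hF (hstep _ _ (by rw [SVM_vert]; exact h1)) (ih x u t h2)
      have h4 : A₀ * (k + 1) = A₀ + A₀ * k := by ring
      rw [h4]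
      exact h3
  refine ⟨3 * (A₀ + 1), by omega, fun R n hR0 hRn γ hγ => ?_⟩
  obtain ⟨z, hz, w, hw, hd⟩ := hγ
  set v := γ • w with hv
  -- the height
  set y := z.im with hy
  set b := v.im with hb
  have hy0 : 0 < y := z.im_pos
  have hb0 : 0 < b := v.im_pos
  set D := |z.re - v.re| with hD
  set H := max (max y b) D with hH
  have hH0 : 0 < H := lt_of_lt_of_le hy0 ((le_max_left _ _).trans (le_max_left _ _))
  have hlog := UpperHalfPlane.dist_log_im_le z v
  rw [Real.dist_eq] at hlog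
  have hlogR : |Real.log y - Real.log b| ≤ R := hlog.trans hd
  have hcosh := UpperHalfPlane.cosh_dist z v
  have hdist0 : 0 ≤ dist z v := dist_nonneg
  have hD2 : D ^ 2 ≤ 2 * y * b * Real.exp R := by
    have h1 : D ^ 2 ≤ dist (z : ℂ) (v : ℂ) ^ 2 := by
      apply pow_le_pow_left₀ (abs_nonneg _)
      rw [Complex.dist_eq]
      have h2 : z.re - v.re = ((z : ℂ) - (v : ℂ)).re := by
        rw [Complex.sub_re]
        rfl
      rw [hD, h2]
      exact Complex.abs_re_le_norm _
    have h2 : Real.cosh (dist z v) ≤ Real.exp (dist z v) := by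
      rw [Real.cosh_eq]
      have : Real.exp (-dist z v) ≤ Real.exp (dist z v) := Real.exp_le_exp.2 (by linarith)
      linarith
    have h3 : Real.exp (dist z v) ≤ Real.exp R := Real.exp_le_exp.2 hd
    have h4 : dist (z : ℂ) (v : ℂ) ^ 2 / (2 * y * b) ≤ Real.exp R := by linarith
    rw [div_le_iff₀ (by positivity)] at h4
    linarith
  have hlogD : ∀ c d : ℝ, 0 < c → 0 < d → |Real.log c - Real.log d| ≤ R → D ^ 2 ≤ 2 * c * d * Real.exp R →
      0 < D → Real.log D ≤ Real.log c + (n + 1) := by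
    intro c d hc hd0 hcd hD' hDp
    have h1 : d ≤ c * Real.exp R := by
      have h2 : Real.log d ≤ Real.log c + R := by linarith [(abs_le.1 hcd).1]
      calc d = Real.exp (Real.log d) := (Real.exp_log hd0).symm
        _ ≤ Real.exp (Real.log c + R) := Real.exp_le_exp.2 h2
        _ = c * Real.exp R := by rw [Real.exp_add, Real.exp_log hc]
    have h2 : D ^ 2 ≤ (c * Real.exp (R + 1)) ^ 2 := by
      have h3 : 2 ≤ Real.exp 1 ^ 2 := by
        have h4 : 2 ≤ Real.exp 1 := by linarith [Real.add_one_le_exp (1 : ℝ)]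
        nlinarith
      have h4 : 0 < Real.exp R := Real.exp_pos R
      calc D ^ 2 ≤ 2 * c * d * Real.exp R := hD'
        _ ≤ 2 * c * (c * Real.exp R) * Real.exp R :=
            mul_le_mul_of_nonneg_right (mul_le_mul_of_nonneg_left h1 (by positivity)) h4.le
        _ = (c * Real.exp R) ^ 2 * 2 := by ring
        _ ≤ (c * Real.exp R) ^ 2 * Real.exp 1 ^ 2 := mul_le_mul_of_nonneg_left h3 (sq_nonneg _)
        _ = (c * Real.exp (R + 1)) ^ 2 := by
            rw [Real.exp_add]
            ring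
    have h3 : D ≤ c * Real.exp (R + 1) := (sq_le_sq₀ hDp.le (by positivity)).1 h2
    have h4 := Real.log_le_log hDp h3
    rw [Real.log_mul hc.ne' (Real.exp_pos _).ne', Real.log_exp] at h4
    linarith
  have hk1 : |Real.log y - Real.log H| ≤ ((n + 1 : ℕ) : ℝ) := by
    have h1 : Real.log y ≤ Real.log H := Real.log_le_log hy0 ((le_max_left _ _).trans (le_max_left _ _))
    have h2 : Real.log H ≤ Real.log y + (n + 1) := by
      rcases max_cases (max y b) D with ⟨h3, h3'⟩ | ⟨h3, h3'⟩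
      · rw [hH, h3]
        rcases max_cases y b with ⟨h4, h4'⟩ | ⟨h4, h4'⟩
        · rw [h4]
          have : (0 : ℝ) ≤ n := Nat.cast_nonneg _
          linarith
        · rw [h4]
          linarith [(abs_le.1 hlogR).1]
      · rw [hH, h3]
        exact hlogD y b hy0 hb0 hlogR hD2 (lt_trans (lt_of_lt_of_le hy0 (le_max_left _ _)) h3')
    rw [abs_le]
    push_cast
    constructor <;> linarith
  have hk2 : |Real.log H - Real.log b| ≤ ((n + 1 : ℕ) : ℝ) := by
    have h1 : Real.log b ≤ Real.log H := Real.log_le_log hb0 ((le_max_right _ _).trans (le_max_left _ _))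
    have h2 : Real.log H ≤ Real.log b + (n + 1) := by
      rcases max_cases (max y b) D with ⟨h3, h3'⟩ | ⟨h3, h3'⟩
      · rw [hH, h3]
        rcases max_cases y b with ⟨h4, h4'⟩ | ⟨h4, h4'⟩
        · rw [h4]
          linarith [(abs_le.1 hlogR).2]
        · rw [h4]
          have : (0 : ℝ) ≤ n := Nat.cast_nonneg _
          linarith
      · rw [hH, h3]
        refine hlogD b y hb0 hy0 (by rw [abs_sub_comm]; exact hlogR) ?_ (lt_trans (lt_of_lt_of_le hy0 (le_max_left _ _)) h3')
        calc D ^ 2 ≤ 2 * y * b * Real.exp R := hD2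
          _ = 2 * b * y * Real.exp R := by ring
    rw [abs_le]
    push_cast
    constructor <;> linarith
  have c1 := hvert (n + 1) z.re (Real.log y) (Real.log H) hk1
  have c2 : SVM_P e F A₀ (SVM_pt z.re (Real.log H)) (SVM_pt v.re (Real.log H)) := by
    apply hstep
    apply SVM_hor
    rw [Real.exp_log hH0]
    exact le_max_right _ _
  have c3 := hvert (n + 1) v.re (Real.log H) (Real.log b) hk2
  have c4 := SVM_trans e F hF (SVM_trans e F hF c1 c2) c3
  rw [SVM_eta, SVM_eta] at c4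
  have c5 := c4 1 γ (by rw [inv_one, one_smul]; exact hz) (by
    rw [hv, ← mul_smul, inv_mul_cancel, one_smul]
    exact hw)
  rw [inv_one, one_mul] at c5
  refine SVM_mono ?_ c5
  nlinarith

end Pool.Agent.QX
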