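import Pool.Agent.helper62.QX.SpecT

set_option autoImplicit false

/-!
# Project QX (MP_07c750_an), row qt:TEX
-/

open scoped Topology
open Filter Set Polynomial
open Pool.Agent.QU Pool.Agent.RP

namespace Pool.Agent.QX

private theorem TEX_eval (L : ℕ) (x : ℝ) : (gl L).eval x = ∏ j ∈ Finset.range L, (1 - (j : ℝ) * x) ^ 2 := by
  unfold gl
  rw [Polynomial.eval_prod]
  refine Finset.prod_congr rfl fun j _ => ?_
  simp

private theorem TEX_prod (L : ℕ) (x : ℝ) (hx : 0 ≤ x) (hL : (L : ℝ) * x ≤ 1) (l : ℕ) (hl : l ≤ L) :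
    0 ≤ ∏ j ∈ Finset.range l, (1 - (j : ℝ) * x) ^ 2 ∧ ∏ j ∈ Finset.range l, (1 - (j : ℝ) * x) ^ 2 ≤ 1 ∧
    1 - (l : ℝ) * (l - 1) * x ≤ ∏ j ∈ Finset.range l, (1 - (j : ℝ) * x) ^ 2 ∧
    ∏ j ∈ Finset.range l, (1 - (j : ℝ) * x) ^ 2 ≤ Real.exp (-((l : ℝ) * (l - 1) * x)) := by
  induction l with
  | zero => simp
  | succ l ih =>
    obtain ⟨h1, h2, h3, h4⟩ := ih (by omega)
    rw [Finset.prod_range_succ]
    set P := ∏ j ∈ Finset.range l, (1 - (j : ℝ) * x) ^ 2 with hP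
    have hlx0 : 0 ≤ (l : ℝ) * x := mul_nonneg (Nat.cast_nonneg _) hx
    have hlx1 : (l : ℝ) * x ≤ 1 := by
      have h5 : (l : ℝ) ≤ L := by exact_mod_cast (by omega : l ≤ L)
      exact (mul_le_mul_of_nonneg_right h5 hx).trans hL
    have hsq0 : 0 ≤ (1 - (l : ℝ) * x) ^ 2 := sq_nonneg _
    have hsq1 : (1 - (l : ℝ) * x) ^ 2 ≤ 1 := by nlinarith
    have hsq2 : 1 - 2 * ((l : ℝ) * x) ≤ (1 - (l : ℝ) * x) ^ 2 := by nlinarith [sq_nonneg ((l : ℝ) * x)]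
    refine ⟨mul_nonneg h1 hsq0, ?_, ?_, ?_⟩
    · calc P * (1 - (l : ℝ) * x) ^ 2 ≤ 1 * 1 := mul_le_mul h2 hsq1 hsq0 zero_le_one
        _ = 1 := one_mul 1
    · have h5 : P * (1 - 2 * ((l : ℝ) * x)) ≤ P * (1 - (l : ℝ) * x) ^ 2 := mul_le_mul_of_nonneg_left hsq2 h1
      have h6 : P * ((l : ℝ) * x) ≤ 1 * ((l : ℝ) * x) := mul_le_mul_of_nonneg_right h2 hlx0
      push_cast
      nlinarith
    · have h5 : 1 - (l : ℝ) * x ≤ Real.exp (-((l : ℝ) * x)) := by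
        have := Real.add_one_le_exp (-((l : ℝ) * x))
        linarith
      have h6 : (1 - (l : ℝ) * x) ^ 2 ≤ Real.exp (-((l : ℝ) * x)) ^ 2 := pow_le_pow_left₀ (by linarith) h5 2
      calc P * (1 - (l : ℝ) * x) ^ 2 ≤ Real.exp (-((l : ℝ) * (l - 1) * x)) * Real.exp (-((l : ℝ) * x)) ^ 2 :=
            mul_le_mul h4 h6 hsq0 (Real.exp_pos _).le
        _ = Real.exp (-(((l + 1 : ℕ) : ℝ) * (((l + 1 : ℕ) : ℝ) - 1) * x)) := by
            rw [← Real.exp_nat_mul, ← Real.exp_add]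
            congr 1
            push_cast
            ring

private theorem TEX_g (L : ℕ) (hL1 : 1 ≤ L) (N : ℕ) (hN : L ≤ N) :
    0 ≤ (gl L).eval (1 / (N : ℝ)) ∧ (gl L).eval (1 / (N : ℝ)) ≤ 1 ∧
    1 - (L : ℝ) * (L - 1) / N ≤ (gl L).eval (1 / (N : ℝ)) ∧
    ((L : ℝ) * (L - 1) / N ≤ 1 → (gl L).eval (1 / (N : ℝ)) ≤ 1 - (L : ℝ) * (L - 1) / N + ((L : ℝ) * (L - 1) / N) ^ 2) := by
  have hN0 : (0 : ℝ) < N := by exact_mod_cast (by omega : 0 < N)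
  have hL1' : (1 : ℝ) ≤ L := by exact_mod_cast hL1
  have hx : (0 : ℝ) ≤ 1 / N := by positivity
  have hLx : (L : ℝ) * (1 / N) ≤ 1 := by
    rw [mul_one_div, div_le_one hN0]
    exact_mod_cast hN
  obtain ⟨h1, h2, h3, h4⟩ := TEX_prod L (1 / N) hx hLx L le_rfl
  rw [← TEX_eval] at h1 h2 h3 h4
  have he : (L : ℝ) * (L - 1) * (1 / N) = (L : ℝ) * (L - 1) / N := by rw [mul_one_div]
  rw [he] at h3 h4
  refine ⟨h1, h2, h3, fun hS => h4.trans ?_⟩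
  have hS0 : 0 ≤ (L : ℝ) * (L - 1) / N := div_nonneg (mul_nonneg (by linarith) (by linarith)) hN0.le
  have h5 := Real.abs_exp_sub_one_sub_id_le (x := -((L : ℝ) * (L - 1) / N)) (by
    rw [abs_neg, abs_of_nonneg hS0]
    exact hS)
  have h6 := (abs_le.1 h5).2
  rw [neg_sq] at h6
  linarith

/-- the algebraic estimate -/
private theorem TEX_alg (l D N a₀ a₁ g r T : ℝ) (hl : 1 ≤ l) (hlD : l ≤ D) (hN : 8 * D ^ 2 ≤ N) (ha₀ : |a₀| ≤ 1) (ha₁ : |a₁| ≤ 144 * D ^ 6)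
    (hg1 : 1 - l * (l - 1) / N ≤ g) (hg2 : g ≤ 1 - l * (l - 1) / N + (l * (l - 1) / N) ^ 2) (hr : |r - a₀ - a₁ / N| ≤ 1024 * D ^ 8 / N ^ 2)
    (hT : r = g * T) : |T - a₀ - (a₁ + l * (l - 1) * a₀) / N| ≤ 2400 * D ^ 8 / N ^ 2 := by
  have hD1 : 1 ≤ D := hl.trans hlD
  have hD2 : 1 ≤ D ^ 2 := one_le_pow₀ hD1
  have hN8 : 8 ≤ N := by linarith
  have hN0 : 0 < N := by linarith
  have hll : 0 ≤ l * (l - 1) := mul_nonneg (by linarith) (by linarith)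
  have hll2 : l * (l - 1) ≤ D ^ 2 := by nlinarith
  set S := l * (l - 1) / N with hS
  have hS0 : 0 ≤ S := div_nonneg hll hN0.le
  have hSD : S ≤ D ^ 2 / N := div_le_div_of_nonneg_right hll2 hN0.le
  have hS8 : S ≤ 1 / 8 := by
    refine hSD.trans ?_
    rw [div_le_div_iff₀ hN0 (by norm_num)]
    linarith
  have hg0 : 1 / 2 ≤ g := by linarith
  set φ := a₁ + l * (l - 1) * a₀ with hφ
  have hφ1 : |φ| ≤ 145 * D ^ 6 := by
    rw [hφ]
    refine (abs_add_le _ _).trans ?_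
    rw [abs_mul, abs_of_nonneg hll]
    have h1 : l * (l - 1) * |a₀| ≤ D ^ 2 * 1 := mul_le_mul hll2 ha₀ (abs_nonneg _) (by positivity)
    have h2 : D ^ 2 ≤ D ^ 6 := pow_le_pow_right₀ hD1 (by norm_num)
    linarith
  have hφN : |φ| / N ≤ 19 * D ^ 4 := by
    rw [div_le_iff₀ hN0]
    have h1 : 19 * D ^ 4 * (8 * D ^ 2) ≤ 19 * D ^ 4 * N := mul_le_mul_of_nonneg_left hN (by positivity)
    have h2 : 0 ≤ D ^ 6 := by positivity
    nlinarith
  set e := g - (1 - S) with he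
  have he0 : 0 ≤ e := by linarith
  have he1 : e ≤ S ^ 2 := by linarith
  have hnum : r - g * (a₀ + φ / N) = (r - a₀ - a₁ / N) + S * (φ / N) - e * (a₀ + φ / N) := by
    have h1 : φ / N = a₁ / N + S * a₀ := by
      rw [hφ, hS]
      ring
    have h2 : g = 1 - S + e := by linarith
    rw [h2]
    nlinarith [h1]
  have hb1 : |S * (φ / N)| ≤ 145 * D ^ 8 / N ^ 2 := by
    rw [abs_mul, abs_of_nonneg hS0, abs_div, abs_of_pos hN0]
    calc S * (|φ| / N) ≤ D ^ 2 / N * (145 * D ^ 6 / N) :=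
          mul_le_mul hSD (div_le_div_of_nonneg_right hφ1 hN0.le) (by positivity) (by positivity)
      _ = 145 * D ^ 8 / N ^ 2 := by
          field_simp
  have hb2 : |e * (a₀ + φ / N)| ≤ 20 * D ^ 8 / N ^ 2 := by
    rw [abs_mul, abs_of_nonneg he0]
    have h1 : |a₀ + φ / N| ≤ 20 * D ^ 4 := by
      refine (abs_add_le _ _).trans ?_
      rw [abs_div, abs_of_pos hN0]
      have h2 : 1 ≤ D ^ 4 := one_le_pow₀ hD1
      linarith
    have h2 : e ≤ (D ^ 2 / N) ^ 2 := he1.trans (pow_le_pow_left₀ hS0 hSD 2)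
    calc e * |a₀ + φ / N| ≤ (D ^ 2 / N) ^ 2 * (20 * D ^ 4) := mul_le_mul h2 h1 (abs_nonneg _) (sq_nonneg _)
      _ = 20 * D ^ 8 / N ^ 2 := by
          field_simp
  have hb3 : |r - g * (a₀ + φ / N)| ≤ 1200 * D ^ 8 / N ^ 2 := by
    rw [hnum]
    have h1 := abs_sub ((r - a₀ - a₁ / N) + S * (φ / N)) (e * (a₀ + φ / N))
    have h2 := abs_add_le (r - a₀ - a₁ / N) (S * (φ / N))
    have h3 : 1024 * D ^ 8 / N ^ 2 + 145 * D ^ 8 / N ^ 2 + 20 * D ^ 8 / N ^ 2 = 1189 * D ^ 8 / N ^ 2 := by ring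
    have h4 : 1189 * D ^ 8 / N ^ 2 ≤ 1200 * D ^ 8 / N ^ 2 := by
      apply div_le_div_of_nonneg_right _ (by positivity)
      have : 0 ≤ D ^ 8 := by positivity
      linarith
    linarith
  have hfin : g * |T - a₀ - φ / N| = |r - g * (a₀ + φ / N)| := by
    have h1 : r - g * (a₀ + φ / N) = g * (T - a₀ - φ / N) := by
      rw [hT]
      ring
    rw [h1, abs_mul, abs_of_pos (by linarith : 0 < g)]
  have h5 : 1 / 2 * |T - a₀ - φ / N| ≤ 1200 * D ^ 8 / N ^ 2 := by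
    calc 1 / 2 * |T - a₀ - φ / N| ≤ g * |T - a₀ - φ / N| := mul_le_mul_of_nonneg_right hg0 (abs_nonneg _)
      _ ≤ 1200 * D ^ 8 / N ^ 2 := by
          rw [hfin]
          exact hb3
  have h6 : 2400 * D ^ 8 / N ^ 2 = 2 * (1200 * D ^ 8 / N ^ 2) := by ring
  rw [h6]
  linarith

theorem TEX : TEX_stmt := by
  refine ⟨2400 * 6561, by norm_num, fun b L hL hsupp hTT => ?_⟩
  obtain ⟨r, hrdeg, hreval, -, -⟩ := A_POL b L hL hsupp
  set D : ℕ := 2 * L + 1 with hD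
  have hD1 : 1 ≤ D := by omega
  have hDr : (1 : ℝ) ≤ D := by exact_mod_cast hD1
  have hLr : (1 : ℝ) ≤ L := by exact_mod_cast hL
  have hLD : (L : ℝ) ≤ D := by exact_mod_cast (by omega : L ≤ D)
  have hD3 : (D : ℝ) ≤ 3 * L := by
    have : D ≤ 3 * L := by omega
    exact_mod_cast this
  have hr1 : ∀ n : ℕ, L ≤ n → |r.eval (1 / (n : ℝ))| ≤ 1 := by
    intro n hn
    obtain ⟨g0, g1, -, -⟩ := TEX_g L hL n hn
    have hn0 : (0 : ℝ) < n := by exact_mod_cast (by omega : 0 < n)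
    rw [hreval n hn, abs_mul, abs_of_nonneg g0, abs_div, abs_of_pos hn0]
    have h1 : |TT n b| / n ≤ 1 := by
      rw [div_le_one hn0]
      exact hTT n (by omega)
    calc (gl L).eval (1 / (n : ℝ)) * (|TT n b| / n) ≤ 1 * 1 := mul_le_mul g1 h1 (by positivity) zero_le_one
      _ = 1 := one_mul 1
  have hr0 : |r.eval 0| ≤ 1 := by
    have h1 : Tendsto (fun n : ℕ => |r.eval (1 / (n : ℝ))|) atTop (𝓝 |r.eval 0|) := by
      have h2 : Continuous fun x : ℝ => |r.eval x| := r.continuous.abs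
      exact (h2.tendsto 0).comp tendsto_one_div_atTop_nhds_zero_nat
    exact le_of_tendsto h1 (Filter.eventually_atTop.2 ⟨L, fun n hn => hr1 n hn⟩)
  have hLM : L ≤ 8 * D ^ 2 := by
    have h1 : D ≤ D ^ 2 := Nat.le_self_pow (by norm_num) D
    omega
  have hDIS := A_DIS r D (8 * D ^ 2) 1 hD1 hrdeg le_rfl (fun n hn => hr1 n (hLM.trans hn))
  have hbound : ∀ n : ℕ, 8 * D ^ 2 ≤ n → |r.eval (1 / (n : ℝ)) - r.eval 0 - r.derivative.eval 0 / n| ≤ 1024 * (D : ℝ) ^ 8 / (n : ℝ) ^ 2 := by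
    intro n hn
    refine (hDIS n hn).trans (le_of_eq ?_)
    push_cast
    ring
  -- bound for the derivative
  have hM0 : (0 : ℝ) < 8 * (D : ℝ) ^ 2 := by positivity
  have hr'0 : |r.derivative.eval 0| ≤ 144 * (D : ℝ) ^ 6 := by
    have h1 := hbound (8 * D ^ 2) le_rfl
    have h2 := hr1 (8 * D ^ 2) hLM
    have hcast : ((8 * D ^ 2 : ℕ) : ℝ) = 8 * (D : ℝ) ^ 2 := by push_cast; ring
    rw [hcast] at h1 h2
    have h3 : |r.derivative.eval 0 / (8 * (D : ℝ) ^ 2)| ≤ 1024 * (D : ℝ) ^ 8 / (8 * (D : ℝ) ^ 2) ^ 2 + 1 + 1 := by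
      have h4 : r.derivative.eval 0 / (8 * (D : ℝ) ^ 2) = (r.eval (1 / (8 * (D : ℝ) ^ 2)) - r.eval 0) -
          (r.eval (1 / (8 * (D : ℝ) ^ 2)) - r.eval 0 - r.derivative.eval 0 / (8 * (D : ℝ) ^ 2)) := by ring
      rw [h4]
      have h5 := abs_sub (r.eval (1 / (8 * (D : ℝ) ^ 2)) - r.eval 0)
        (r.eval (1 / (8 * (D : ℝ) ^ 2)) - r.eval 0 - r.derivative.eval 0 / (8 * (D : ℝ) ^ 2))
      have h6 := abs_sub (r.eval (1 / (8 * (D : ℝ) ^ 2))) (r.eval 0)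
      linarith
    rw [abs_div, abs_of_pos hM0, div_le_iff₀ hM0] at h3
    have h7 : (1024 * (D : ℝ) ^ 8 / (8 * (D : ℝ) ^ 2) ^ 2 + 1 + 1) * (8 * (D : ℝ) ^ 2) = 128 * (D : ℝ) ^ 6 + 16 * (D : ℝ) ^ 2 := by
      field_simp
      ring
    rw [h7] at h3
    have h8 : (D : ℝ) ^ 2 ≤ (D : ℝ) ^ 6 := pow_le_pow_right₀ hDr (by norm_num)
    linarith
  have hll : 0 ≤ (L : ℝ) * (L - 1) := mul_nonneg (by linarith) (by linarith)
  have hll2 : (L : ℝ) * (L - 1) ≤ (D : ℝ) ^ 2 := by nlinarith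
  have hφ1 : |r.derivative.eval 0 + (L : ℝ) * (L - 1) * r.eval 0| ≤ 145 * (D : ℝ) ^ 6 := by
    refine (abs_add_le _ _).trans ?_
    rw [abs_mul, abs_of_nonneg hll]
    have h1 : (L : ℝ) * (L - 1) * |r.eval 0| ≤ (D : ℝ) ^ 2 * 1 := mul_le_mul hll2 hr0 (abs_nonneg _) (by positivity)
    have h2 : (D : ℝ) ^ 2 ≤ (D : ℝ) ^ 6 := pow_le_pow_right₀ hDr (by norm_num)
    linarith
  have hD8 : (D : ℝ) ^ 8 ≤ 6561 * (L : ℝ) ^ 8 := by
    calc (D : ℝ) ^ 8 ≤ (3 * (L : ℝ)) ^ 8 := pow_le_pow_left₀ (by linarith) hD3 8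
      _ = 6561 * (L : ℝ) ^ 8 := by ring
  refine ⟨r.eval 0, r.derivative.eval 0 + (L : ℝ) * (L - 1) * r.eval 0, ?_, ?_, ?_⟩
  · have h1 : (1 : ℝ) ≤ (L : ℝ) ^ 8 := one_le_pow₀ hLr
    linarith
  · have h1 : (D : ℝ) ^ 6 ≤ (D : ℝ) ^ 8 := pow_le_pow_right₀ hDr (by norm_num)
    have h2 : 0 ≤ (L : ℝ) ^ 8 := by positivity
    linarith
  · intro N hN
    have hN0 : (0 : ℝ) < N := by exact_mod_cast (by omega : 0 < N)
    have hgoal : |TT N b / N - r.eval 0 - (r.derivative.eval 0 + (L : ℝ) * (L - 1) * r.eval 0) / N| ≤ 2400 * (D : ℝ) ^ 8 / (N : ℝ) ^ 2 := by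
      rcases le_or_gt (8 * D ^ 2) N with h | h
      · have hLN : L ≤ N := hLM.trans h
        obtain ⟨-, -, g1, g2⟩ := TEX_g L hL N hLN
        have hNr : 8 * (D : ℝ) ^ 2 ≤ N := by exact_mod_cast h
        have hS1 : (L : ℝ) * (L - 1) / N ≤ 1 := by
          rw [div_le_one hN0]
          have : 0 ≤ (D : ℝ) ^ 2 := by positivity
          linarith
        exact TEX_alg L D N _ _ _ _ _ hLr hLD hNr hr0 hr'0 g1 (g2 hS1) (hbound N h) (hreval N hLN)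
      · have hNr : (N : ℝ) ≤ 8 * (D : ℝ) ^ 2 := by
          have h1 : N ≤ 8 * D ^ 2 := by omega
          exact_mod_cast h1
        have h1 : |TT N b / N| ≤ 1 := by
          rw [abs_div, abs_of_pos hN0, div_le_one hN0]
          exact hTT N hN
        have h2 := abs_sub (TT N b / N - r.eval 0) ((r.derivative.eval 0 + (L : ℝ) * (L - 1) * r.eval 0) / N)
        have h3 := abs_sub (TT N b / N) (r.eval 0)
        rw [abs_div (r.derivative.eval 0 + (L : ℝ) * (L - 1) * r.eval 0), abs_of_pos hN0] at h2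
        have h4 : |r.derivative.eval 0 + (L : ℝ) * (L - 1) * r.eval 0| / N ≤ 145 * (D : ℝ) ^ 6 / N := div_le_div_of_nonneg_right hφ1 hN0.le
        have h5 : 2 + 145 * (D : ℝ) ^ 6 / N ≤ 2400 * (D : ℝ) ^ 8 / (N : ℝ) ^ 2 := by
          rw [le_div_iff₀ (by positivity)]
          have h6 : (2 + 145 * (D : ℝ) ^ 6 / N) * (N : ℝ) ^ 2 = 2 * (N : ℝ) ^ 2 + 145 * (D : ℝ) ^ 6 * N := by
            field_simp
          rw [h6]
          have h7 : (N : ℝ) ^ 2 ≤ (8 * (D : ℝ) ^ 2) ^ 2 := pow_le_pow_left₀ hN0.le hNr 2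
          have h8 : 145 * (D : ℝ) ^ 6 * N ≤ 145 * (D : ℝ) ^ 6 * (8 * (D : ℝ) ^ 2) := mul_le_mul_of_nonneg_left hNr (by positivity)
          have h9 : (D : ℝ) ^ 4 ≤ (D : ℝ) ^ 8 := pow_le_pow_right₀ hDr (by norm_num)
          nlinarith
        linarith
    refine hgoal.trans ?_
    apply div_le_div_of_nonneg_right _ (by positivity)
    linarith

end Pool.Agent.QX
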