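import Pool.Agent.helper4.QX.SpecD
import Pool.Agent.helper62.QU.All

set_option autoImplicit false

/-!
# Project QX (MP_07c750_an), row qd:YNM: Young's inequality for signed kernels and bounded measurable sections
-/

open scoped MatrixGroups ContDiff Topology UpperHalfPlane
open UpperHalfPlane MeasureTheory ProbabilityTheory Filter Set Polynomial
open Pool.Agent.QU Pool.Agent.RP

namespace Pool.Agent.QX

/-- weighted Cauchy-Schwarz inequality. -/
private theorem YNM_cs (K f : ℍ → ℝ) (hK0 : ∀ w, 0 ≤ K w) (i1 : Integrable K) (i2 : Integrable fun w => K w * f w)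
    (i3 : Integrable fun w => K w * f w ^ 2) : (∫ w : ℍ, K w * f w) ^ 2 ≤ (∫ w : ℍ, K w) * ∫ w : ℍ, K w * f w ^ 2 := by
  have h : ∀ s : ℝ, 0 ≤ (∫ w : ℍ, K w) * (s * s) + (-2 * ∫ w : ℍ, K w * f w) * s +
      ∫ w : ℍ, K w * f w ^ 2 := by
    intro s
    have j1 : Integrable fun w => s * s * K w := i1.const_mul _
    have j2 : Integrable fun w => 2 * s * (K w * f w) := i2.const_mul _
    have j3 : Integrable fun w => s * s * K w - 2 * s * (K w * f w) := j1.sub j2
    have h1 : (∫ w : ℍ, K w) * (s * s) + (-2 * ∫ w : ℍ, K w * f w) * s + ∫ w : ℍ, K w * f w ^ 2 =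
        ∫ w : ℍ, ((s * s * K w - 2 * s * (K w * f w)) + K w * f w ^ 2) := by
      rw [integral_add j3 i3, integral_sub j1 j2, integral_const_mul, integral_const_mul]
      ring
    rw [h1]
    refine integral_nonneg fun w => ?_
    have h2 : s * s * K w - 2 * s * (K w * f w) + K w * f w ^ 2 = K w * (f w - s) ^ 2 := by ring
    show 0 ≤ s * s * K w - 2 * s * (K w * f w) + K w * f w ^ 2
    rw [h2]
    exact mul_nonneg (hK0 w) (sq_nonneg _)
  have h3 := discrim_le_zero h
  unfold discrim at h3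
  nlinarith

/-- integrability of bounded measurable kernels of finite propagation -/
private theorem YNM_int (F K : Set ℍ) (hF : MeasurableSet F)
    (hK : IsCompact K) (hFK : F ⊆ K) (G : ℍ → ℍ → ℝ) (hG : Measurable (Function.uncurry G)) (C : ℝ) (hC : ∀ z w, |G z w| ≤ C)
    (R : ℝ) (hR : ∀ z w, G z w ≠ 0 → dist z w ≤ R) :
    IntegrableOn (Function.uncurry G) (F ×ˢ (univ : Set ℍ))
      ((volume : Measure ℍ).prod (volume : Measure ℍ)) := by
  have hK' : IsCompact (Metric.cthickening R K) := hK.cthickening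
  have h1 : IntegrableOn (Function.uncurry G) (K ×ˢ Metric.cthickening R K)
      ((volume : Measure ℍ).prod (volume : Measure ℍ)) := by
    refine Measure.integrableOn_of_bounded (M := C) (hK.prod hK').measure_lt_top.ne hG.aestronglyMeasurable ?_
    exact Eventually.of_forall fun p => hC p.1 p.2
  refine IntegrableOn.of_forall_sdiff_eq_zero h1 (hF.prod MeasurableSet.univ) ?_
  rintro ⟨z, w⟩ ⟨⟨hz, -⟩, hzw⟩
  by_contra hne
  apply hzw
  refine ⟨hFK hz, ?_⟩
  refine Metric.mem_cthickening_of_dist_le w z R K (hFK hz) ?_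
  rw [dist_comm]
  exact hR z w hne

/-- symmetry of double integrals for bounded measurable invariant kernels -/
private theorem YNM_sym (Γ : Subgroup SL(2, ℝ)) (F : Set ℍ) (G : ℍ → ℍ → ℝ) (hΓ : SurfaceGroup Γ) (hF : NiceDom Γ F)
    (hG : Measurable (Function.uncurry G)) (C : ℝ) (hC : ∀ z w, |G z w| ≤ C)
    (hinv : ∀ (γ : Γ) z w, G (γ • z) (γ • w) = G z w) (R : ℝ) (hR : ∀ z w, G z w ≠ 0 → dist z w ≤ R) :
    ∫ z in F, ∫ w : ℍ, G z w = ∫ z in F, ∫ w : ℍ, G w z := by
  obtain ⟨K, hK, hFK⟩ := hF.rel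
  obtain ⟨hcount, -⟩ := A_DOB Γ F hΓ hF
  have := hcount
  have : SMulInvariantMeasure Γ ℍ (volume : Measure ℍ) := A_INV.2.1 Γ
  have : MeasurableConstSMul Γ ℍ := ⟨fun γ => by
    have : Continuous fun z : ℍ => γ • z := continuous_const_smul γ
    exact this.measurable⟩
  have : MeasurableConstSMul Γ (ℍ × ℍ) := ⟨fun γ =>
    (measurable_const_smul γ).prodMap (measurable_const_smul γ)⟩
  have : SMulInvariantMeasure Γ (ℍ × ℍ)
      ((volume : Measure ℍ).prod (volume : Measure ℍ)) :=
    ⟨fun γ s hs => ((measurePreserving_smul γ (volume : Measure ℍ)).prod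
      (measurePreserving_smul γ (volume : Measure ℍ))).measure_preimage hs.nullMeasurableSet⟩
  have e1 : ∫ z in F, ∫ w : ℍ, G z w =
      ∫ x in F ×ˢ (univ : Set ℍ), Function.uncurry G x ∂(volume : Measure ℍ).prod (volume : Measure ℍ) := by
    rw [setIntegral_prod _ (YNM_int F K hF.meas hK hFK G hG C hC R hR)]
    simp only [Measure.restrict_univ, Function.uncurry_apply_pair]
  have hG' : Measurable (Function.uncurry fun z w => G w z) := hG.comp measurable_swap
  have i2 := YNM_int F K hF.meas hK hFK (fun z w => G w z) hG' C (fun z w => hC w z) R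
    (fun z w h => by rw [dist_comm]; exact hR w z h)
  have e2 : ∫ z in F, ∫ w : ℍ, G w z =
      ∫ x in F ×ˢ (univ : Set ℍ), (Function.uncurry fun z w => G w z) x
        ∂(volume : Measure ℍ).prod (volume : Measure ℍ) := by
    rw [setIntegral_prod _ i2]
    simp only [Measure.restrict_univ, Function.uncurry_apply_pair]
  have e3 : ∫ x in F ×ˢ (univ : Set ℍ), (Function.uncurry fun z w => G w z) x
        ∂(volume : Measure ℍ).prod (volume : Measure ℍ) =
      ∫ x in (univ : Set ℍ) ×ˢ F, Function.uncurry G x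
        ∂(volume : Measure ℍ).prod (volume : Measure ℍ) := by
    have h5 := (Measure.measurePreserving_swap (μ := (volume : Measure ℍ))
      (ν := (volume : Measure ℍ))).setIntegral_preimage_emb
      (MeasurableEquiv.prodComm.measurableEmbedding) (Function.uncurry G)
      ((univ : Set ℍ) ×ˢ F)
    rw [← h5]
    have e4 : (Prod.swap ⁻¹' ((univ : Set ℍ) ×ˢ F) : Set (ℍ × ℍ)) = F ×ˢ (univ : Set ℍ) := by
      ext ⟨a, b⟩
      simp
    rw [e4]
    rfl
  rw [e1, e2, e3]
  refine (SYM_dom Γ F hF).setIntegral_eq (SYM_dom' Γ F hF) ?_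
  rintro γ ⟨z, w⟩
  exact hinv γ z w

theorem YNM : YNM_stmt := by
  intro Γ F V _ _ _ ρ κ φ m hΓ hF hκ hφ hm
  obtain ⟨K, hK, hFK⟩ := hF.rel
  obtain ⟨M, hM⟩ := hφ.bdd
  have hM0 : 0 ≤ M := (norm_nonneg _).trans (hM UpperHalfPlane.I)
  have htt0 : ∀ z w, 0 ≤ tt z w := A_TTT.2.1
  have hm0 : 0 ≤ m := le_trans (integral_nonneg fun w => abs_nonneg _) (hm UpperHalfPlane.I)
  have hcont2 : Continuous fun p : ℍ × ℍ => κ (tt p.1 p.2) := YNG_cont2 A_TTT hκ
  have hcont1 : ∀ z, Continuous fun w : ℍ => κ (tt z w) := YNG_cont1 A_TTT hκ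
  obtain ⟨R, hR0, hR⟩ := YNG_supp A_TTT hκ
  -- bound of the kernel
  obtain ⟨Ck, hCk⟩ : ∃ Ck : ℝ, ∀ z w, |κ (tt z w)| ≤ Ck := by
    obtain ⟨s, hs⟩ := hκ.supp
    obtain ⟨C, hC⟩ := (isCompact_Icc (a := (0 : ℝ)) (b := s)).exists_bound_of_continuousOn hκ.smooth.continuous.continuousOn
    refine ⟨max C 0, fun z w => ?_⟩
    rcases le_or_gt (tt z w) s with h | h
    · exact (hC _ ⟨htt0 z w, h⟩).trans (le_max_left _ _)
    · rw [hs _ h.le, abs_zero]
      exact le_max_right _ _
  have hCk0 : 0 ≤ Ck := (abs_nonneg _).trans (hCk UpperHalfPlane.I UpperHalfPlane.I)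
  have hnm : Measurable fun w => ‖φ w‖ := hφ.meas.norm.measurable
  -- integrability
  have hball : ∀ z : ℍ, IsCompact (Metric.closedBall z R) := fun z => isCompact_closedBall z R
  have hint : ∀ (z : ℍ) (f : ℍ → ℝ), Measurable f → (∃ B : ℝ, ∀ w, |f w| ≤ B) → Integrable fun w => |κ (tt z w)| * f w := by
    rintro z f hf ⟨B, hB⟩
    have h1 : IntegrableOn (fun w => |κ (tt z w)| * f w) (Metric.closedBall z R) := by
      refine Measure.integrableOn_of_bounded (M := Ck * B) (hball z).measure_lt_top.ne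
        ((hcont1 z).abs.measurable.mul hf).aestronglyMeasurable ?_
      refine Eventually.of_forall fun w => ?_
      rw [Real.norm_eq_abs, abs_mul, abs_abs]
      exact mul_le_mul (hCk z w) (hB w) (abs_nonneg _) hCk0
    refine h1.integrable_of_forall_notMem_eq_zero fun w hw => ?_
    have h2 : κ (tt z w) = 0 := by
      by_contra hc
      apply hw
      rw [Metric.mem_closedBall, dist_comm]
      exact hR z w hc
    rw [h2, abs_zero, zero_mul]
  have hi1 : ∀ z, Integrable fun w => |κ (tt z w)| := by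
    intro z
    have h1 := hint z (fun _ => 1) measurable_const ⟨1, fun _ => by rw [abs_one]⟩
    simpa using h1
  have hi2 : ∀ z, Integrable fun w => |κ (tt z w)| * ‖φ w‖ := fun z =>
    hint z _ hnm ⟨M, fun w => by rw [abs_norm]; exact hM w⟩
  have hi3 : ∀ z, Integrable fun w => |κ (tt z w)| * ‖φ w‖ ^ 2 := fun z =>
    hint z _ (hnm.pow_const 2) ⟨M ^ 2, fun w => by
      rw [abs_of_nonneg (sq_nonneg _)]
      exact pow_le_pow_left₀ (norm_nonneg _) (hM w) 2⟩
  refine ⟨⟨?_, ?_⟩, ?_⟩
  · -- continuity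
    rw [continuous_iff_continuousAt]
    intro z₀
    unfold conv
    refine continuousAt_of_dominated (bound := (Metric.closedBall z₀ (R + 1)).indicator fun _ => Ck * M) ?_ ?_ ?_ ?_
    · refine Eventually.of_forall fun z => ?_
      exact ((hcont1 z).stronglyMeasurable.smul hφ.meas).aestronglyMeasurable
    · filter_upwards [Metric.ball_mem_nhds z₀ one_pos] with z hz
      refine Eventually.of_forall fun w => ?_
      by_cases hw : w ∈ Metric.closedBall z₀ (R + 1)
      · rw [indicator_of_mem hw, norm_smul, Real.norm_eq_abs]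
        exact mul_le_mul (hCk z w) (hM w) (norm_nonneg _) hCk0
      · rw [indicator_of_notMem hw]
        have h2 : κ (tt z w) = 0 := by
          by_contra hc
          apply hw
          have h4 := hR z w hc
          rw [Metric.mem_ball] at hz
          rw [Metric.mem_closedBall]
          calc dist w z₀ ≤ dist w z + dist z z₀ := dist_triangle _ _ _
            _ ≤ R + 1 := by
              rw [dist_comm w z]
              linarith
        rw [h2, zero_smul, norm_zero]
    · rw [integrable_indicator_iff measurableSet_closedBall]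
      exact integrableOn_const (isCompact_closedBall z₀ (R + 1)).measure_lt_top.ne
    · refine Eventually.of_forall fun w => ?_
      have h2 : Continuous fun z : ℍ => κ (tt z w) := hcont2.comp (Continuous.prodMk_left w)
      exact (h2.smul continuous_const).continuousAt
  · exact A_EQV Γ V ρ κ φ hφ.eqv
  · -- the inequality
    have hpt : ∀ z, ‖conv κ φ z‖ ^ 2 ≤ m * ∫ w : ℍ, |κ (tt z w)| * ‖φ w‖ ^ 2 := by
      intro z
      have a1 : ‖conv κ φ z‖ ≤ ∫ w : ℍ, |κ (tt z w)| * ‖φ w‖ := by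
        unfold conv
        refine (norm_integral_le_integral_norm _).trans (le_of_eq ?_)
        refine integral_congr_ae (Eventually.of_forall fun w => ?_)
        show ‖κ (tt z w) • φ w‖ = _
        rw [norm_smul, Real.norm_eq_abs]
      have a2 := YNM_cs (fun w => |κ (tt z w)|) (fun w => ‖φ w‖) (fun w => abs_nonneg _) (hi1 z) (hi2 z) (hi3 z)
      have a3 : 0 ≤ ∫ w : ℍ, |κ (tt z w)| * ‖φ w‖ ^ 2 :=
        integral_nonneg fun w => mul_nonneg (abs_nonneg _) (sq_nonneg _)
      calc ‖conv κ φ z‖ ^ 2 ≤ (∫ w : ℍ, |κ (tt z w)| * ‖φ w‖) ^ 2 :=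
            pow_le_pow_left₀ (norm_nonneg _) a1 2
        _ ≤ _ := a2
        _ ≤ _ := mul_le_mul_of_nonneg_right (hm z) a3
    set G : ℍ → ℍ → ℝ := fun z w => |κ (tt z w)| * ‖φ w‖ ^ 2 with hGdef
    have hGm : Measurable (Function.uncurry G) :=
      hcont2.abs.measurable.mul ((hnm.pow_const 2).comp measurable_snd)
    have hGC : ∀ z w, |G z w| ≤ Ck * M ^ 2 := by
      intro z w
      show |(|κ (tt z w)| * ‖φ w‖ ^ 2)| ≤ _
      rw [abs_mul, abs_abs, abs_of_nonneg (sq_nonneg ‖φ w‖)]
      exact mul_le_mul (hCk z w) (pow_le_pow_left₀ (norm_nonneg _) (hM w) 2) (sq_nonneg _) hCk0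
    have hGR : ∀ z w, G z w ≠ 0 → dist z w ≤ R := fun z w hzw => hR z w fun h0 => hzw (by
      show |κ (tt z w)| * ‖φ w‖ ^ 2 = 0
      rw [h0, abs_zero, zero_mul])
    have hGinv : ∀ (γ : Γ) z w, G (γ • z) (γ • w) = G z w := by
      intro γ z w
      have e1 : tt (γ • z) (γ • w) = tt z w := A_TTT.2.2.2.1 (γ : SL(2, ℝ)) z w
      show |κ (tt (γ • z) (γ • w))| * ‖φ (γ • w)‖ ^ 2 = |κ (tt z w)| * ‖φ w‖ ^ 2
      rw [e1, hφ.eqv, LinearIsometryEquiv.norm_map]
    have i1 : IntegrableOn (fun z : ℍ => m * ∫ w : ℍ, G z w) F := by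
      have h1 := YNM_int F K hF.meas hK hFK G hGm _ hGC R hGR
      have h2 : ((volume : Measure ℍ).prod (volume : Measure ℍ)).restrict (F ×ˢ (univ : Set ℍ)) =
          ((volume : Measure ℍ).restrict F).prod (volume : Measure ℍ) := by
        rw [← Measure.prod_restrict, Measure.restrict_univ]
      rw [IntegrableOn, h2] at h1
      exact (h1.integral_prod_left).const_mul m
    have i2 : IntegrableOn (fun z : ℍ => m * ‖φ z‖ ^ 2) F := by
      refine Measure.integrableOn_of_bounded (M := m * M ^ 2) (lt_of_le_of_lt (measure_mono hFK) hK.measure_lt_top).ne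
        ((hnm.pow_const 2).const_mul m).aestronglyMeasurable ?_
      refine Eventually.of_forall fun z => ?_
      rw [Real.norm_eq_abs, abs_mul, abs_of_nonneg hm0, abs_of_nonneg (sq_nonneg ‖φ z‖)]
      exact mul_le_mul_of_nonneg_left (pow_le_pow_left₀ (norm_nonneg _) (hM z) 2) hm0
    have s1 : ∫ z in F, ‖conv κ φ z‖ ^ 2 ≤ ∫ z in F, m * ∫ w : ℍ, G z w :=
      integral_mono_of_nonneg (Eventually.of_forall fun z => sq_nonneg _) i1
        (Eventually.of_forall hpt)
    have s2 : ∫ z in F, ∫ w : ℍ, G z w = ∫ z in F, ∫ w : ℍ, G w z :=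
      YNM_sym Γ F G hΓ hF hGm _ hGC hGinv R hGR
    have s3 : ∫ z in F, ∫ w : ℍ, G w z ≤ ∫ z in F, m * ‖φ z‖ ^ 2 := by
      refine integral_mono_of_nonneg (Eventually.of_forall fun z => ?_) i2
        (Eventually.of_forall fun z => ?_)
      · exact integral_nonneg fun w => mul_nonneg (abs_nonneg _) (sq_nonneg _)
      · show ∫ w : ℍ, |κ (tt w z)| * ‖φ z‖ ^ 2 ≤ m * ‖φ z‖ ^ 2
        rw [integral_mul_const]
        refine mul_le_mul_of_nonneg_right ?_ (sq_nonneg _)
        refine le_trans (le_of_eq ?_) (hm z)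
        refine integral_congr_ae (Eventually.of_forall fun w => ?_)
        show |κ (tt w z)| = |κ (tt z w)|
        rw [A_TTT.2.2.1 w z]
    rw [integral_const_mul] at s1 s3
    rw [s2] at s1
    calc ∫ z in F, ‖conv κ φ z‖ ^ 2 ≤ m * ∫ z in F, ∫ w : ℍ, G w z := s1
      _ ≤ m * (m * ∫ z in F, ‖φ z‖ ^ 2) := mul_le_mul_of_nonneg_left s3 hm0
      _ = _ := by ring

end Pool.Agent.QX
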